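import Mathlib
import Pool.Agent.Results.MP_309968_ag.BoundaryRays
import Pool.Agent.Results.MP_309968_ag.FewCoefficients
import Pool.Agent.Results.MP_309968_ag.SexticDistance
import Pool.Agent.K4H62.CN.Int

set_option autoImplicit false

/-!
# The nef cone is almost round near all classes with few distinct coefficients

Let `p_1, …, p_n`, `n ≥ 4`, be very general points of the complex projective plane. The classes
`D = c H - ∑ x_i E_i` on the blow-up have ARBITRARY real coefficients `0 ≤ x_i ≤ M`, with `c ≥ 24 M`.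
The Harbourne-Hirschowitz conjecture (Q1) predicts that `D` is nef as soon as `D ^ 2 ≥ 0`.

1. Let the nonzero coefficients of `D` lie in `r` intervals of total length `Λ`, and
   `c ^ 2 ≥ (16 r + 128) M ^ 2`. Then `D` is nef if `D ^ 2 ≥ 0` and
   `D ^ 2 (c ^ 2 - (16 r + 128) M ^ 2) ^ 2 ≥ 400 M ^ 4 Λ ^ 2`.
2. Let `δ` be the distance of the vector `x` from a vector `x'` with at most `r` distinct
   coefficients, `c ^ 2 ≥ (32 r + 256) M ^ 2`. Then `D` is nef if `D ^ 2 ≥ 0` and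
   `D ^ 2 ≥ 150000 r ^ 2 (M / c) ^ 6 δ ^ 2`. So the boundary of the nef cone is, at each class of
   self-intersection zero with at most `r` distinct coefficients, tangent to the boundary of the
   positive cone, of the second order and up to the factor `1 + 150000 r ^ 2 (M / c) ^ 6` only (for
   `√n H - ∑ E_i` this is `1 + 150000 / n ^ 3`).
3. Dually, let `m_i ≤ W` be the multiplicities of a plane curve of degree `e`, irreducible or not, and
   let `S = ∑ m_i ^ 2` be at least `576 W ^ 2`. If the nonzero `m_i` lie in `r` intervals of total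
   length `Λ` and `S > (16 r + 128) W ^ 2` then
   `S - e ^ 2 ≤ 400 W ^ 4 Λ ^ 2 / (S - (16 r + 128) W ^ 2) ^ 2`.
4. If `S ≥ (32 r + 256) W ^ 2` then `S - e ^ 2 ≤ 150000 r ^ 2 (W ^ 2 / S) ^ 3 δ ^ 2` for the distance
   `δ` of the vector of the `m_i` from any real vector with at most `r` distinct coefficients.

For `Λ = 0` or `δ = 0` this is, up to the constants, the starting result `FewCoefficients`, for
`r = 1` and the interval `[0, M]` it is `SexticDistance`; the two are the extreme cases.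

Idea: let `G` be irreducible of degree `e` with multiplicities `u_i`, `D G < 0` and `k = - G ^ 2`. For
`t = e / c` we have `∑ (u_i - t x_i) ^ 2 + t ^ 2 D ^ 2 ≤ k`, and two different `u_i` differ by at
least `√k`. By `FewCoefficients` there are more than about `e ^ 2 / (16 μ ^ 2)` different values,
`μ = max u_i ≤ t M + √k`. If `N j + 1` different values of `u` belong to the interval number `j` then
the sum of the `N j` is at most `t Λ / √k + √(2 ∑ N j)`, as the extreme values of an interval with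
`N j ≥ 1` are at different points and the sum of the squares of the deviations is at most `k`. And
`A` numbers at mutual distances at least `√k` have the sum of the squares of the distances from
`r` given numbers at least `k (A ^ 3 / r ^ 2 - A) / 12`. So `t ^ 2 D ^ 2 ≤ k` is at most about
`(16 t Λ M ^ 2 / c ^ 2) ^ 2` and at most about `50000 t ^ 2 r ^ 2 δ ^ 2 (M / c) ^ 6`.
-/

namespace Pool.Agent.Results.MP_309968_ag.CoefficientIntervals

open Pool.Agent.W609.CR (Van Ord aff)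
open Pool.Agent.TH167.SH (van_le van_zero van_of_mul exists_fam)
open Pool.Agent.Results.MP_309968_ag.BoundaryRays (MultGE curveClasses curvCone cone_le)
open Pool.Agent.Results.MP_309968_ag.SexticDistance (mult_iff exists_ord)

/-- The nonzero numbers among the `x i` lie in the intervals `[a j, b j]`. -/
def InIntervals {n r : ℕ} (x : Fin n → ℝ) (a b : Fin r → ℝ) : Prop :=
  (∀ j, a j ≤ b j) ∧ ∀ i, x i = 0 ∨ ∃ j, a j ≤ x i ∧ x i ≤ b j

/-- The total length of the intervals `[a j, b j]`. -/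
def len {r : ℕ} (a b : Fin r → ℝ) : ℝ := ∑ j, (b j - a j)

/-- from irreducible curves to all forms -/
theorem forms_of_irr {n : ℕ} {p : Fin n → Fin 2 → ℂ} {x : Fin n → ℝ} {c : ℝ} (hx0 : ∀ i, 0 ≤ x i)
    (hirr : ∀ (G : MvPolynomial (Fin 3) ℂ) (e : ℕ) (u : Fin n → ℕ), Irreducible G →
      G.IsHomogeneous e → (∀ j, Ord (aff (p j)) (u j) G) → ∑ i, x i * (u i : ℝ) ≤ c * e)
    (F : MvPolynomial (Fin 3) ℂ) (e : ℕ) (m : Fin n → ℕ) (hF : F.IsHomogeneous e) (hF0 : F ≠ 0)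
    (hm : ∀ i, MultGE (p i) F (m i)) : ∑ i, x i * (m i : ℝ) ≤ c * e := by
  classical
  have key : F ≠ 0 → ∀ (e : ℕ) (m : Fin n → ℕ), F.IsHomogeneous e →
      (∀ i, Van (aff (p i)) (m i) F) → ∑ i, x i * (m i : ℝ) ≤ c * e := by
    refine WfDvdMonoid.induction_on_irreducible (motive := fun F => F ≠ 0 → ∀ (e : ℕ)
      (m : Fin n → ℕ), F.IsHomogeneous e →
      (∀ i, Van (aff (p i)) (m i) F) → ∑ i, x i * (m i : ℝ) ≤ c * e) F
      (fun h0 => absurd rfl h0) ?_ ?_
    · intro F hF hF0 e m hFe hm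
      have he : e = 0 := by
        obtain ⟨g, hg⟩ := hF.exists_right_inv
        have hg0 : g ≠ 0 := by
          rintro rfl
          rw [mul_zero] at hg
          exact zero_ne_one hg
        have h3 := MvPolynomial.totalDegree_mul_of_isDomain hF0 hg0
        rw [hg, hFe.totalDegree hF0, MvPolynomial.totalDegree_one] at h3
        omega
      have h3 : ∀ i, m i = 0 := fun i => by
        have := van_le hF0 hFe (hm i)
        omega
      rw [he]
      simp [h3]
    · intro F G hF0 hG ih hGF e m hFe hm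
      have hGh := Pool.Agent.Chud.homog_of_dvd hFe hGF ⟨F, rfl⟩
      have hFh := Pool.Agent.Chud.homog_of_dvd hFe hGF ⟨G, mul_comm _ _⟩
      have hdeg : e = G.totalDegree + F.totalDegree := by
        rw [← MvPolynomial.totalDegree_mul_of_isDomain hG.ne_zero hF0, hFe.totalDegree hGF]
      choose u hu using fun i => exists_ord (a := p i) hG.ne_zero hGh
      have h3 : ∑ i, x i * (u i : ℝ) ≤ c * G.totalDegree := hirr G _ u hG hGh hu
      have h4 := ih hF0 _ (fun i => m i - u i) hFh fun i => by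
        rcases le_total (u i) (m i) with h5 | h5
        · refine van_of_mul (hu i) ?_
          rw [Nat.add_sub_cancel' h5]
          exact hm i
        · rw [Nat.sub_eq_zero_of_le h5]
          exact van_zero _ _
      have h5 : ∑ i, x i * (m i : ℝ) ≤
          ∑ i, (x i * (u i : ℝ) + x i * ((m i - u i : ℕ) : ℝ)) := by
        refine Finset.sum_le_sum fun i _ => ?_
        rw [← mul_add]
        refine mul_le_mul_of_nonneg_left ?_ (hx0 i)
        have : m i ≤ u i + (m i - u i) := by omega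
        exact_mod_cast this
      rw [Finset.sum_add_distrib] at h5
      rw [hdeg]
      push_cast
      linarith
  exact key hF0 e m hF ((mult_iff hF m).1 hm)

/-- the inequality for all forms -/
theorem form_le {n : ℕ} (hn : 4 ≤ n) : ∃ f : ℕ → MvPolynomial (Fin n × Fin 2) ℂ, (∀ k, f k ≠ 0) ∧
    ∀ p : Fin n → Fin 2 → ℂ,
      (∀ k, MvPolynomial.eval (fun q : Fin n × Fin 2 => p q.1 q.2) (f k) ≠ 0) →
      ∀ (x : Fin n → ℝ) (c M : ℝ), 0 < M → (∀ i, 0 ≤ x i) → (∀ i, x i ≤ M) →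
        24 * M ≤ c → ∑ i, x i ^ 2 ≤ c ^ 2 →
        ((∃ (r : ℕ) (a b : Fin r → ℝ), InIntervals x a b ∧ (16 * r + 128) * M ^ 2 ≤ c ^ 2 ∧
          400 * M ^ 4 * len a b ^ 2 ≤
            (c ^ 2 - (16 * r + 128) * M ^ 2) ^ 2 * (c ^ 2 - ∑ i, x i ^ 2)) ∨
        (∃ (r : ℕ) (x' : Fin n → ℝ), (Finset.univ.image x').card ≤ r ∧
          (32 * r + 256) * M ^ 2 ≤ c ^ 2 ∧
          150000 * r ^ 2 * M ^ 6 * ∑ i, (x i - x' i) ^ 2 ≤ c ^ 6 * (c ^ 2 - ∑ i, x i ^ 2))) →
        ∀ (F : MvPolynomial (Fin 3) ℂ) (e : ℕ) (m : Fin n → ℕ), F.IsHomogeneous e → F ≠ 0 →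
          (∀ i, MultGE (p i) F (m i)) → ∑ i, x i * (m i : ℝ) ≤ c * e := by
  classical
  obtain ⟨s, rfl⟩ : ∃ s, n = s + 4 := ⟨n - 4, by omega⟩
  obtain ⟨f1, hf1, h1⟩ := exists_fam (Fin (s + 4) × Fin 2)
  obtain ⟨f2, hf2, h2⟩ := FewCoefficients.result (s + 4)
  refine ⟨fun k => f1 k * f2 k, fun k => mul_ne_zero (hf1 k) (hf2 k),
    fun p hp x c M hM hx0 hxM hc hsq h => forms_of_irr hx0 fun G e u hG hGh hu => ?_⟩
  have hP := (h1 fun q => p q.1 q.2).1 fun k => by
    have := hp k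
    rw [map_mul] at this
    exact left_ne_zero_of_mul this
  have hfew := (h2 p fun k => by
    have := hp k
    rw [map_mul] at this
    exact right_ne_zero_of_mul this).2
  have hfewG := fun W hW =>
    hfew G e W u hGh hG.ne_zero ((mult_iff hGh u).2 fun i => (hu i).1) hW
  rcases h with ⟨r, a, b, hI, hcr, h⟩ | ⟨r, x', hr, hcr, h⟩
  · exact Pool.Agent.K4H62.CN.nef_int hP hM hx0 hxM hI.1 hI.2 hc hcr hsq h hG hGh hu
      fun W hW => (hfewG W hW).1
  · exact Pool.Agent.K4H62.CN.nef_few hP hM hx0 hxM hr hc hcr hsq h hG hGh hu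
      fun W hW => (hfewG W hW).1

/-- From the inequality `∑ m_i ^ 2 ≤ √R e` to the inequality for `∑ m_i ^ 2 - e ^ 2`. -/
theorem dual_num {S A Q R e : ℝ} (hS0 : 0 ≤ S) (hA0 : 0 ≤ A) (hQ : 0 < Q) (hR : R = S + A / Q)
    (he : 0 ≤ e) (h1 : S ≤ √R * e) : (S - e ^ 2) * Q ≤ A := by
  have hAS : 0 ≤ A / Q := by positivity
  have hRS : S ≤ R := by linarith
  have hAR : (R - S) * Q = A := by
    rw [hR, add_sub_cancel_left]
    exact div_mul_cancel₀ A hQ.ne'
  have hR0 : 0 ≤ R := by linarith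
  have hs : √R ^ 2 = R := Real.sq_sqrt hR0
  have h3 : S ^ 2 ≤ R * e ^ 2 := by
    have h4 : S ^ 2 ≤ (√R * e) ^ 2 := pow_le_pow_left₀ hS0 h1 2
    rwa [mul_pow, hs] at h4
  rcases le_or_gt S (e ^ 2) with h5 | h5
  · have h6 : (S - e ^ 2) * Q ≤ 0 := mul_nonpos_of_nonpos_of_nonneg (by linarith) hQ.le
    linarith
  · have hSp : 0 < S := lt_of_le_of_lt (sq_nonneg e) h5
    have h6 : S - e ^ 2 ≤ R - S := by
      have h7 : (R - S) * e ^ 2 ≤ (R - S) * S :=
        mul_le_mul_of_nonneg_left h5.le (by linarith)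
      have h8 : S * S ≤ S * (e ^ 2 + (R - S)) := by nlinarith
      have h9 := le_of_mul_le_mul_left h8 hSp
      linarith
    have h7 := mul_le_mul_of_nonneg_right h6 hQ.le
    linarith

/-- Part (1) is the criterion with `r` intervals, part (2) the one with the distance from a vector
with at most `r` distinct coefficients, parts (3), (4) the dual inequalities for plane curves. -/
theorem result (n : ℕ) (hn : 4 ≤ n) :
    ∃ f : ℕ → MvPolynomial (Fin n × Fin 2) ℂ, (∀ k, f k ≠ 0) ∧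
      ∀ p : Fin n → Fin 2 → ℂ,
        (∀ k, MvPolynomial.eval (fun q : Fin n × Fin 2 => p q.1 q.2) (f k) ≠ 0) →
        (∀ (x : Fin n → ℝ) (c M : ℝ), 0 < M → (∀ i, 0 ≤ x i) → (∀ i, x i ≤ M) →
          24 * M ≤ c → ∑ i, x i ^ 2 ≤ c ^ 2 →
          (∀ (r : ℕ) (a b : Fin r → ℝ), InIntervals x a b → (16 * r + 128) * M ^ 2 ≤ c ^ 2 →
            400 * M ^ 4 * len a b ^ 2 ≤
              (c ^ 2 - (16 * r + 128) * M ^ 2) ^ 2 * (c ^ 2 - ∑ i, x i ^ 2) →
            ∀ z ∈ curvCone p, 0 ≤ c * z.1 - ∑ i, x i * z.2 i) ∧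
          (∀ (r : ℕ) (x' : Fin n → ℝ), (Finset.univ.image x').card ≤ r →
            (32 * r + 256) * M ^ 2 ≤ c ^ 2 →
            150000 * r ^ 2 * M ^ 6 * ∑ i, (x i - x' i) ^ 2 ≤ c ^ 6 * (c ^ 2 - ∑ i, x i ^ 2) →
            ∀ z ∈ curvCone p, 0 ≤ c * z.1 - ∑ i, x i * z.2 i)) ∧
        ∀ (F : MvPolynomial (Fin 3) ℂ) (e W : ℕ) (m : Fin n → ℕ),
          F.IsHomogeneous e → F ≠ 0 → (∀ i, MultGE (p i) F (m i)) → (∀ i, m i ≤ W) →
          576 * W ^ 2 ≤ ∑ i, m i ^ 2 →
          (∀ (r : ℕ) (a b : Fin r → ℝ), InIntervals (fun i => (m i : ℝ)) a b →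
            (16 * r + 128) * W ^ 2 < ∑ i, m i ^ 2 →
            (((∑ i, m i ^ 2 : ℕ) : ℝ) - (e : ℝ) ^ 2) *
              (((∑ i, m i ^ 2 : ℕ) : ℝ) - (16 * r + 128) * (W : ℝ) ^ 2) ^ 2 ≤
              400 * (W : ℝ) ^ 4 * len a b ^ 2) ∧
          (∀ (r : ℕ) (x' : Fin n → ℝ), (Finset.univ.image x').card ≤ r →
            (32 * r + 256) * W ^ 2 ≤ ∑ i, m i ^ 2 →
            (((∑ i, m i ^ 2 : ℕ) : ℝ) - (e : ℝ) ^ 2) * ((∑ i, m i ^ 2 : ℕ) : ℝ) ^ 3 ≤
              150000 * r ^ 2 * (W : ℝ) ^ 6 * ∑ i, ((m i : ℝ) - x' i) ^ 2) := by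
  classical
  obtain ⟨f, hf, hf'⟩ := form_le hn
  refine ⟨f, hf, fun p hp => ?_⟩
  have hA : ∀ (x : Fin n → ℝ) (c M : ℝ), 0 < M → (∀ i, 0 ≤ x i) → (∀ i, x i ≤ M) →
        24 * M ≤ c → ∑ i, x i ^ 2 ≤ c ^ 2 →
        ((∃ (r : ℕ) (a b : Fin r → ℝ), InIntervals x a b ∧ (16 * r + 128) * M ^ 2 ≤ c ^ 2 ∧
          400 * M ^ 4 * len a b ^ 2 ≤
            (c ^ 2 - (16 * r + 128) * M ^ 2) ^ 2 * (c ^ 2 - ∑ i, x i ^ 2)) ∨
        (∃ (r : ℕ) (x' : Fin n → ℝ), (Finset.univ.image x').card ≤ r ∧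
          (32 * r + 256) * M ^ 2 ≤ c ^ 2 ∧
          150000 * r ^ 2 * M ^ 6 * ∑ i, (x i - x' i) ^ 2 ≤ c ^ 6 * (c ^ 2 - ∑ i, x i ^ 2))) →
      ∀ z ∈ curvCone p, 0 ≤ c * z.1 - ∑ i, x i * z.2 i := by
    intro x c M hM hx0 hxM hc hsq h z hz
    have h1 := cone_le (p := p) (l := x) (g := id) (c := c) hx0
      fun F e m hF he hF0 hm => by
        have h1 := hf' p hp x c M hM hx0 hxM hc hsq h F e m hF hF0 hm
        simp only [id]
        linarith
    have h2 := h1 z hz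
    simp only [id] at h2
    linarith
  refine ⟨fun x c M hM hx0 hxM hc hsq => ⟨fun r a b hI hcr h =>
      hA x c M hM hx0 hxM hc hsq (Or.inl ⟨r, a, b, hI, hcr, h⟩),
    fun r x' hr hcr h => hA x c M hM hx0 hxM hc hsq (Or.inr ⟨r, x', hr, hcr, h⟩)⟩,
    fun F e W m hF hF0 hm hWm h576 => ?_⟩
  obtain ⟨S, hS⟩ : ∃ S : ℝ, S = ((∑ i, m i ^ 2 : ℕ) : ℝ) := ⟨_, rfl⟩
  have hS' : S = ∑ i, (m i : ℝ) ^ 2 := by rw [hS]; push_cast; rfl
  rw [← hS]
  have h576' : 576 * (W : ℝ) ^ 2 ≤ S := by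
    rw [hS]
    exact_mod_cast h576
  have hS0 : 0 ≤ S := by rw [hS]; exact Nat.cast_nonneg _
  have he0 : (0 : ℝ) ≤ e := Nat.cast_nonneg _
  have h2 : ∑ i, (m i : ℝ) * (m i : ℝ) = S := by
    rw [hS']
    exact Finset.sum_congr rfl fun i _ => by ring
  rcases Nat.eq_zero_or_pos W with hW | hW
  · -- all multiplicities are zero
    have h1 : ∀ i, m i = 0 := fun i => by
      have := hWm i
      omega
    have h3 : ∑ i, m i ^ 2 = 0 := Finset.sum_eq_zero fun i _ => by rw [h1 i]; norm_num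
    have h4 : S = 0 := by rw [hS, h3, Nat.cast_zero]
    refine ⟨fun r a b _ hlt => ?_, fun r x' _ _ => ?_⟩
    · rw [h3] at hlt
      omega
    · rw [h4]
      have : 0 ≤ ∑ i, ((m i : ℝ) - x' i) ^ 2 := Finset.sum_nonneg fun i _ => sq_nonneg _
      have h5 : 0 ≤ 150000 * (r : ℝ) ^ 2 * (W : ℝ) ^ 6 * ∑ i, ((m i : ℝ) - x' i) ^ 2 := by
        positivity
      norm_num
      exact h5
  have hWR : (0 : ℝ) < W := by exact_mod_cast hW
  have hSp : 0 < S := lt_of_lt_of_le (by positivity) h576'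
  refine ⟨fun r a b hI hcr => ?_, fun r x' hr hcr => ?_⟩
  · obtain ⟨B, hB⟩ : ∃ B : ℝ, B = (16 * r + 128) * (W : ℝ) ^ 2 := ⟨_, rfl⟩
    have hBS : B < S := by
      rw [hB, hS]
      exact_mod_cast hcr
    rw [← hB]
    have hB0 : 0 ≤ B := by rw [hB]; positivity
    obtain ⟨A, hA'⟩ : ∃ A : ℝ, A = 400 * (W : ℝ) ^ 4 * len a b ^ 2 := ⟨_, rfl⟩
    rw [← hA']
    have hA0 : 0 ≤ A := by rw [hA']; positivity
    obtain ⟨R, hR⟩ : ∃ R : ℝ, R = S + A / (S - B) ^ 2 := ⟨_, rfl⟩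
    have hSB : 0 < (S - B) ^ 2 := by
      have : 0 < S - B := by linarith
      positivity
    have hAS : 0 ≤ A / (S - B) ^ 2 := by positivity
    have hRS : S ≤ R := by linarith
    have hAR : (R - S) * (S - B) ^ 2 = A := by
      rw [hR, add_sub_cancel_left]
      exact div_mul_cancel₀ A hSB.ne'
    have hs : √R ^ 2 = R := Real.sq_sqrt (by linarith)
    refine dual_num hS0 hA0 hSB hR he0 ?_
    have h1 := hf' p hp (fun i => (m i : ℝ)) (√R) W hWR (fun i => Nat.cast_nonneg _)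
      (fun i => by exact_mod_cast hWm i)
      (Real.le_sqrt_of_sq_le (by
        have e1 : (24 * (W : ℝ)) ^ 2 = 576 * (W : ℝ) ^ 2 := by ring
        linarith))
      (by rw [hs, ← hS']; exact hRS)
      (Or.inl ⟨r, a, b, hI, by rw [hs, ← hB]; linarith, by
        rw [hs, ← hB, ← hS', ← hA', ← hAR]
        have h2 : (S - B) ^ 2 ≤ (R - B) ^ 2 := pow_le_pow_left₀ (by linarith) (by linarith) 2
        have h3 := mul_le_mul_of_nonneg_right h2 (sub_nonneg.2 hRS)
        linarith⟩) F e m hF hF0 hm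
    rwa [h2] at h1
  · obtain ⟨A, hA'⟩ : ∃ A : ℝ,
        A = 150000 * (r : ℝ) ^ 2 * (W : ℝ) ^ 6 * ∑ i, ((m i : ℝ) - x' i) ^ 2 := ⟨_, rfl⟩
    rw [← hA']
    have hA0 : 0 ≤ A := by
      rw [hA']
      have : 0 ≤ ∑ i, ((m i : ℝ) - x' i) ^ 2 := Finset.sum_nonneg fun i _ => sq_nonneg _
      positivity
    have hS3 : 0 < S ^ 3 := by positivity
    obtain ⟨R, hR⟩ : ∃ R : ℝ, R = S + A / S ^ 3 := ⟨_, rfl⟩
    have hAS : 0 ≤ A / S ^ 3 := by positivity
    have hRS : S ≤ R := by linarith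
    have hAR : (R - S) * S ^ 3 = A := by
      rw [hR, add_sub_cancel_left]
      exact div_mul_cancel₀ A hS3.ne'
    have hs : √R ^ 2 = R := Real.sq_sqrt (by linarith)
    refine dual_num hS0 hA0 hS3 hR he0 ?_
    have h1 := hf' p hp (fun i => (m i : ℝ)) (√R) W hWR (fun i => Nat.cast_nonneg _)
      (fun i => by exact_mod_cast hWm i)
      (Real.le_sqrt_of_sq_le (by
        have e1 : (24 * (W : ℝ)) ^ 2 = 576 * (W : ℝ) ^ 2 := by ring
        linarith))
      (by rw [hs, ← hS']; exact hRS)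
      (Or.inr ⟨r, x', hr, by
        rw [hs]
        have : (32 * (r : ℝ) + 256) * (W : ℝ) ^ 2 ≤ S := by
          rw [hS]
          exact_mod_cast hcr
        linarith, by
        have e1 : √R ^ 6 = R ^ 3 := by
          rw [show √R ^ 6 = (√R ^ 2) ^ 3 by ring, hs]
        rw [e1, hs, ← hS', ← hA', ← hAR]
        have h2 : S ^ 3 ≤ R ^ 3 := pow_le_pow_left₀ hS0 hRS 3
        have h3 := mul_le_mul_of_nonneg_right h2 (sub_nonneg.2 hRS)
        linarith⟩) F e m hF hF0 hm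
    rwa [h2] at h1

end Pool.Agent.Results.MP_309968_ag.CoefficientIntervals
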