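import Mathlib
import Pool.Agent.R355.ConeAct
import Pool.Agent.TH167.SH.Conv
import Pool.Agent.TH167.SH.Defs
import Pool.Agent.K4H62.CN.Nag

set_option autoImplicit false

/-!
# The nef cone is round to second order at the Nagata rays and at their Cremona transforms

Let `X` be the blow-up of the complex projective plane at `n ≥ 10` very general points, and let `T` be
a set of `t ≥ 10` of the points. The Nagata class `N = √t H - ∑_{i ∈ T} E i` is nef (starting library)
and `N ^ 2 = 0`. Up to a factor every class near `N` is of the form `D = N' - ∑ v_i E i` with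
`N' = c H - ∑_{i ∈ T} E i`, `∑_{i ∈ T} v_i = 0`, and `D ^ 2 = c ^ 2 - t - |v| ^ 2`. Let
`4 t ^ 3 |v| ≤ 1` and `v_j ≥ 0` for `j ∉ T`. The Harbourne-Hirschowitz conjecture (Q1) predicts that
`D` is nef as soon as `D ^ 2 ≥ 0`. Proved here:

* if `t ≥ 12` then `D` is nef as soon as `D ^ 2 ≥ κ |v| ^ 2`, where `κ = 1 / γ` and
  `γ = max (t - 11 √t / 3 - 9 / 4) (2 - 6 / √t) > 0`: at `N` the boundary of the nef cone is tangent to
  that of the positive cone, of the second order up to the factor `1 + κ`;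
* for every `t ≥ 10`, `D` is nef as soon as `D ^ 2 ≥ (3 t) ^ (1 / 3) |v| ^ (4 / 3)`;
* the same holds for all the classes in the orbits of these `D` under the group generated by the
  reflections in the classes `H - E i - E j - E l`, so near infinitely many irrational rays for every
  nonsquare `t`;
* dually, if `t ≥ 12` then every irreducible curve `C` of degree `e` with the multiplicities `u_i`
  and `S = ∑_{i ∈ T} u_i ≥ t ^ 2` satisfies
  `C ^ 2 ≥ - (∑_{i ∈ T} (u_i - S / t) ^ 2 + ∑_{i ∉ T} u_i ^ 2) / (1 + γ)`.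

Idea: let `C` be irreducible with `k = - C ^ 2 > 0`, `q ^ 2` the sum of squares in the last formula and
`δ = t e ^ 2 - S ^ 2`, a positive integer by Nagata's inequality; so `q ^ 2 = k + δ / t`. By Xu and
Ein-Lazarsfeld `k ≤ u_i` for all `u_i > 0`; if all `u_i` with `i ∈ T` are positive then `k ≤ S / t`, and if
one of them is zero then `q` is large. For large `S` and `t ≥ 12` one has `δ ≥ γ S` (emptiness of
linear systems with the second term of the expansion, starting library). So `k` is at most a fixed part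
of `q ^ 2`, and `D C ≥ c e - S - |v| q ≥ 0` follows by the Cauchy-Schwarz inequality.
-/

namespace Pool.Agent.Results.MP_309968_ag.NagataRound

open Pool.Agent.R355.ConeAct
open Pool.Agent.TH167.SHDefs (Curve)

/-- The class `c H - ∑_{i ∈ T} E i - ∑ v i E i`. -/
noncomputable def near {n : ℕ} (T : Finset (Fin n)) (c : ℝ) (v : Fin n → ℝ) :
    ℝ × (Fin n → ℝ) :=
  (c, fun i => (if i ∈ T then 1 else 0) + v i)

theorem result (n : ℕ) :
    ∃ f : ℕ → MvPolynomial (Fin n × Fin 2) ℂ, (∀ k, f k ≠ 0) ∧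
      ∀ P : Fin n → Fin 2 → ℂ,
        (∀ k, MvPolynomial.eval (fun q : Fin n × Fin 2 => P q.1 q.2) (f k) ≠ 0) →
        -- (1) nef classes near the Nagata rays and their Cremona transforms
        (∀ T : Finset (Fin n), 10 ≤ T.card → ∀ (c : ℝ) (v : Fin n → ℝ), 0 ≤ c →
          ∑ i ∈ T, v i = 0 → (∀ j, j ∉ T → 0 ≤ v j) → 16 * (T.card : ℝ) ^ 6 * ∑ i, v i ^ 2 ≤ 1 →
          0 ≤ c ^ 2 - T.card - ∑ i, v i ^ 2 →
          (3 * T.card * (∑ i, v i ^ 2) ^ 2 ≤ (c ^ 2 - T.card - ∑ i, v i ^ 2) ^ 3 ∨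
            (12 ≤ T.card ∧ ∑ i, v i ^ 2 ≤ (c ^ 2 - T.card - ∑ i, v i ^ 2) *
              max ((T.card : ℝ) - 11 / 3 * √(T.card : ℝ) - 9 / 4) (2 - 6 / √(T.card : ℝ)))) →
          ∀ D, Carries (near T c v) D →
            dot D D = c ^ 2 - T.card - ∑ i, v i ^ 2 ∧ ∀ x ∈ curvCone P, 0 ≤ dot D x) ∧
        -- (2) the self-intersection of irreducible curves
        ∀ T : Finset (Fin n), 12 ≤ T.card → ∀ (G : MvPolynomial (Fin 3) ℂ) (e : ℕ) (u : Fin n → ℕ),
          Curve P G e u → (T.card : ℝ) ^ 2 ≤ ∑ i ∈ T, (u i : ℝ) →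
          -(∑ i ∈ T, ((u i : ℝ) - (∑ l ∈ T, (u l : ℝ)) / T.card) ^ 2 + ∑ i ∈ Tᶜ, (u i : ℝ) ^ 2) ≤
            ((e : ℝ) ^ 2 - ∑ i, (u i : ℝ) ^ 2) *
              (1 + max ((T.card : ℝ) - 11 / 3 * √(T.card : ℝ) - 9 / 4) (2 - 6 / √(T.card : ℝ))) := by
  classical
  obtain ⟨f, hf, h⟩ := Pool.Agent.TH167.SH.exists_fam (Fin n × Fin 2)
  refine ⟨f, hf, fun P hP0 => ?_⟩
  have hP := (h _).1 hP0
  refine ⟨fun T hT c v hc0 hv hvT hr hX0 hcrit D hD => ?_, fun T hT G e u hG hS => ?_⟩
  · obtain ⟨ρ, hρ⟩ : ∃ ρ, ρ = √(∑ i, v i ^ 2) := ⟨_, rfl⟩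
    have hV0 : 0 ≤ ∑ i, v i ^ 2 := Finset.sum_nonneg fun i _ => sq_nonneg _
    have hρ0 : 0 ≤ ρ := by rw [hρ]; exact Real.sqrt_nonneg _
    have hρ2 : ρ ^ 2 = ∑ i, v i ^ 2 := by rw [hρ]; exact Real.sq_sqrt hV0
    have hρ4 : (∑ i, v i ^ 2) ^ 2 = ρ ^ 4 := by rw [← hρ2]; ring
    rw [hρ4, ← hρ2] at hcrit
    rw [← hρ2] at hr hX0 ⊢
    have ht0 : (0 : ℝ) < T.card := by
      have : (10 : ℝ) ≤ T.card := by exact_mod_cast hT
      linarith
    have hρr : 4 * (T.card : ℝ) ^ 3 * ρ ≤ 1 := by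
      refine Pool.Agent.K4H62.CN.le_of_sq (by norm_num) ?_
      have e1 : (4 * (T.card : ℝ) ^ 3 * ρ) ^ 2 = 16 * (T.card : ℝ) ^ 6 * ρ ^ 2 := by ring
      rw [e1]
      linarith
    have hdot : dot (near T c v) (near T c v) = c ^ 2 - T.card - ρ ^ 2 := by
      unfold dot near
      simp only
      have e1 : ∀ i, ((if i ∈ T then (1 : ℝ) else 0) + v i) * ((if i ∈ T then (1 : ℝ) else 0) + v i) =
          (if i ∈ T then 1 else 0) + 2 * (if i ∈ T then v i else 0) + v i ^ 2 := by
        intro i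
        by_cases hi : i ∈ T
        · simp only [if_pos hi]
          ring
        · simp only [if_neg hi]
          ring
      rw [Finset.sum_congr rfl fun i _ => e1 i, Finset.sum_add_distrib, Finset.sum_add_distrib,
        ← Finset.mul_sum, Finset.sum_ite_mem, Finset.sum_ite_mem, Finset.univ_inter, hv, ← hρ2]
      simp
      ring
    have hnef : ∀ x ∈ curvCone P, 0 ≤ dot (near T c v) x := by
      refine nef_of_gen ?_
      rintro x (⟨G, d, w, hG, rfl⟩ | ⟨j, rfl⟩)
      · obtain ⟨g1, g2, g3⟩ := Pool.Agent.TH167.SH.curve_iff.1 hG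
        have h1 := Pool.Agent.K4H62.CN.nag_irr hP hT hv hρ2 hρ0 hρr hc0 hX0 hcrit g1 g2 g3
        show 0 ≤ c * (d : ℝ) - ∑ i, ((if i ∈ T then 1 else 0) + v i) * (w i : ℝ)
        linarith
      · have h1 : dot (near T c v) ((0 : ℝ), (Pi.single j (-1 : ℝ) : Fin n → ℝ)) =
            (if j ∈ T then 1 else 0) + v j := by
          unfold dot near
          simp [Pi.single_apply]
        rw [h1]
        by_cases hj : j ∈ T
        · rw [if_pos hj]
          have h2 : v j ^ 2 ≤ ρ ^ 2 := by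
            rw [hρ2]
            exact Finset.single_le_sum (f := fun i => v i ^ 2) (fun i _ => sq_nonneg _)
              (Finset.mem_univ j)
          have h3 : ρ ≤ 1 := by
            have h4 : (1 : ℝ) ≤ 4 * (T.card : ℝ) ^ 3 := by
              have h5 : (10 : ℝ) ≤ T.card := by exact_mod_cast hT
              have h6 : (10 : ℝ) ^ 3 ≤ (T.card : ℝ) ^ 3 := pow_le_pow_left₀ (by norm_num) h5 3
              linarith
            have h5 := mul_le_mul_of_nonneg_right h4 hρ0
            linarith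
          have h4 := (abs_le_of_sq_le_sq' h2 hρ0).1
          linarith
        · rw [if_neg hj]
          have := hvT j hj
          linarith
    obtain ⟨h1, h2, -⟩ := nef_carries hP hD hnef
    exact ⟨by rw [h2, hdot], h1⟩
  · obtain ⟨g1, g2, g3⟩ := Pool.Agent.TH167.SH.curve_iff.1 hG
    have h1 := Pool.Agent.K4H62.CN.self_ge hP hT g1 g2 g3 hS
    have h2 := Pool.Agent.TH142.NU.var_eq T u (by omega)
    have h3 := Finset.sum_add_sum_compl T fun i => (u i : ℝ) ^ 2
    unfold Pool.Agent.K4H62.CN.vari Pool.Agent.K4H62.CN.gam at h1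
    rw [h2]
    linarith

end Pool.Agent.Results.MP_309968_ag.NagataRound
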