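import Mathlib
import Pool.Agent.Results.MP_309968_ag.BoundaryRays
import Pool.Agent.K4H28.TC.Forms

set_option autoImplicit false

/-!
# Standard negative curves: the degree and the multiplicities outside of nine points

Let `p_1, …, p_n`, `n ≥ 9`, be very general points of the complex projective plane, `X` the blow-up,
and let `T` be a set of nine indices.

(1) Let `C` be an irreducible curve on `X` with `C ^ 2 < 0`, not a `(-1)`-curve, whose class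
    `e H - ∑ u_i E_i` is in standard form (`u_i + u_j + u_k ≤ e`; every such curve has a class of this
    kind in its orbit under the reflections in the classes `H - E_i - E_j - E_k`). Then
    `2 e ≤ 3 (e ^ 2 - ∑_{i ∈ T} u_i ^ 2) + 6`, in other words
    `e ≤ 3 + (3 / 2) (∑_{j ∉ T} u_j ^ 2 + C ^ 2)`.
(2) Let `D = c H - ∑ x_i E_i` be a class with real coefficients `x_i ≥ 0` in standard form with
    `D ^ 2 ≥ 0`. For `i ∉ T` let `B_i` be the sum of the `x_j ^ 2` over the `j ∉ T` with `x_j < x_i`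
    and let `A_i` be the sum over the `j ∉ T` with `x_j ≥ x_i`. If every `i ∉ T` satisfies
    `2 x_i A_i ≤ c (D ^ 2 + B_i)` (or `x_i ^ 2 ≤ 7 D ^ 2`, or `x_i ^ 2 ≤ 4 (D ^ 2 + B_i)`), then `D` is
    nef.
(3) Dually, let `m_i` be numbers with `(m_i + m_j + m_k) ^ 2 ≤ S = ∑ m_l ^ 2` and let `η ≥ 0` satisfy
    for every `i ∉ T` one of the inequalities `2 m_i A_i ≤ √S (η + B_i)`, `m_i ^ 2 ≤ 7 η`,
    `m_i ^ 2 ≤ 4 (η + B_i)`. Then `S ^ 2 ≤ e ^ 2 (S + η)` for every plane curve of degree `e`,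
    irreducible or not, with multiplicities at least `m_i`.

In particular `c D ^ 2 ≥ 2 x ∑_{j ∉ T} x_j ^ 2` suffices in (2), where `x` is the largest `x_j` with
`j ∉ T`; for ten points this is `c D ^ 2 ≥ 2 x ^ 3`. There is no condition on `n` and on the nine
coefficients `x_i`, `i ∈ T`. The conjecture (Q1) predicts (2) as soon as `D ^ 2 ≥ 0`.
-/

namespace Pool.Agent.Results.MP_309968_ag.StandardNegativeDegree

open Pool.Agent.W609.CR (Van Ord aff)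
open Pool.Agent.TH167.SH (van_le exists_fam ip kk)
open Pool.Agent.R355.NegOrb (Irr)
open Pool.Agent.Results.MP_309968_ag.BoundaryRays (MultGE curveClasses curvCone cone_le)
open Pool.Agent.K4H28.TC

/-- `F = 0` is an irreducible plane curve of degree `e` whose multiplicity at `p i` is exactly
`u i`. -/
def Curve {n : ℕ} (p : Fin n → Fin 2 → ℂ) (F : MvPolynomial (Fin 3) ℂ) (e : ℕ) (u : Fin n → ℕ) :
    Prop :=
  F.IsHomogeneous e ∧ Irreducible F ∧ ∀ i, MultGE (p i) F (u i) ∧ ¬ MultGE (p i) F (u i + 1)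

/-- The class `C = e H - ∑ u i E i` satisfies `C ^ 2 = -1` and `K C = -1`. -/
def MinusOne {n : ℕ} (e : ℕ) (u : Fin n → ℕ) : Prop :=
  ∑ i, u i ^ 2 = e ^ 2 + 1 ∧ ∑ i, u i + 1 = 3 * e

/-- the two descriptions of multiplicities -/
theorem mult_iff {n : ℕ} {p : Fin n → Fin 2 → ℂ} {F : MvPolynomial (Fin 3) ℂ} {e : ℕ}
    (hF : F.IsHomogeneous e) (m : Fin n → ℕ) :
    (∀ i, MultGE (p i) F (m i)) ↔ ∀ i, Van (aff (p i)) (m i) F := by
  have h1 : (∀ i, Van (aff (p i)) (m i) F) ↔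
      F ∈ Pool.Agent.W609.CR.VS (fun j => aff (p j)) m e := by
    rw [Pool.Agent.TH167.SH.mem_VS]
    exact ⟨fun h => ⟨hF, h⟩, fun h => h.2⟩
  rw [h1, Pool.Agent.W609.CR.vs_eq_forms, Pool.Agent.H248R5.mem_forms]
  have h2 : ∀ i, Pool.Agent.H248R5.tau (p i) F ∈ (MvPolynomial.idealOfVars (Fin 2) ℂ) ^ (m i) ↔
      MultGE (p i) F (m i) := by
    intro i
    rw [MvPolynomial.mem_pow_idealOfVars_iff']
    constructor
    · intro h s hs
      by_contra hne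
      refine (MvPolynomial.mem_support_iff.1 hs) (h s ?_)
      rw [Finsupp.degree_eq_sum, Fin.sum_univ_two]
      omega
    · intro h s hs
      by_contra hne
      have h3 := h s (MvPolynomial.mem_support_iff.2 hne)
      rw [Finsupp.degree_eq_sum, Fin.sum_univ_two] at hs
      omega
  constructor
  · exact fun h => ⟨hF, fun i => (h2 i).2 (h i)⟩
  · exact fun h i => (h2 i).1 (h.2 i)

theorem mult_iff1 {a : Fin 2 → ℂ} {F : MvPolynomial (Fin 3) ℂ} {e : ℕ}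
    (hF : F.IsHomogeneous e) (m : ℕ) : MultGE a F m ↔ Van (aff a) m F := by
  have h := mult_iff (p := fun _ : Fin 1 => a) hF fun _ => m
  exact ⟨fun h1 => h.1 (fun _ => h1) 0, fun h1 => h.2 (fun _ => h1) 0⟩

theorem curve_iff {n : ℕ} {p : Fin n → Fin 2 → ℂ} {F : MvPolynomial (Fin 3) ℂ} {e : ℕ}
    {u : Fin n → ℕ} : Curve p F e u ↔
      Irreducible F ∧ F.IsHomogeneous e ∧ ∀ j, Ord (aff (p j)) (u j) F := by
  constructor
  · rintro ⟨h1, h2, h3⟩
    exact ⟨h2, h1, fun j => ⟨(mult_iff1 h1 _).1 (h3 j).1,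
      fun h => (h3 j).2 ((mult_iff1 h1 _).2 h)⟩⟩
  · rintro ⟨h1, h2, h3⟩
    exact ⟨h2, h1, fun j => ⟨(mult_iff1 h2 _).2 (h3 j).1,
      fun h => (h3 j).2 ((mult_iff1 h2 _).1 h)⟩⟩

theorem minusOne_iff {n e : ℕ} {u : Fin n → ℕ} :
    (ip e u e u = -1 ∧ kk e u = 1) ↔ MinusOne e u := by
  have h1 : ip e u e u = ((e ^ 2 : ℕ) : ℤ) - ((∑ i, u i ^ 2 : ℕ) : ℤ) := by
    unfold ip
    push_cast
    rw [pow_two]
    congr 1
    exact Finset.sum_congr rfl fun i _ => by ring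
  have h2 : kk e u = ((3 * e : ℕ) : ℤ) - ((∑ i, u i : ℕ) : ℤ) := by
    unfold kk
    push_cast
    rfl
  rw [h1, h2]
  unfold MinusOne
  constructor
  · rintro ⟨h3, h4⟩
    exact ⟨by omega, by omega⟩
  · rintro ⟨h3, h4⟩
    exact ⟨by omega, by omega⟩

theorem irr_of {n : ℕ} {p : Fin n → Fin 2 → ℂ} {F : MvPolynomial (Fin 3) ℂ} {e : ℕ}
    {u : Fin n → ℕ} (h1 : Irreducible F) (h2 : F.IsHomogeneous e)
    (h3 : ∀ j, Ord (aff (p j)) (u j) F) (h : ¬ MinusOne e u) : Irr p e u :=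
  ⟨⟨F, h1, h2, h3⟩, fun h0 => h (minusOne_iff.1 h0)⟩

/-- From irreducible curves to the closed cone. -/
theorem cone_of {n : ℕ} {p : Fin n → Fin 2 → ℂ} {x : Fin n → ℝ} {c : ℝ} (hx0 : ∀ i, 0 ≤ x i)
    (h : ∀ (F : MvPolynomial (Fin 3) ℂ) (e : ℕ) (m : Fin n → ℕ), F.IsHomogeneous e → F ≠ 0 →
      (∀ i, MultGE (p i) F (m i)) → ∑ i, x i * (m i : ℝ) ≤ c * e) :
    ∀ z ∈ curvCone p, 0 ≤ c * z.1 - ∑ i, x i * z.2 i := by
  intro z hz
  have h1 := cone_le (p := p) (l := x) (g := id) (c := c) hx0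
    fun F e m hF _ hF0 hm => by
      have h1 := h F e m hF hF0 hm
      simp only [id]
      linarith
  have h2 := h1 z hz
  simp only [id] at h2
  linarith

/-- The inequality for all forms, and the bound for the degree. -/
theorem forms {n : ℕ} (hn : 4 ≤ n) {p : Fin n → Fin 2 → ℂ}
    (hP : AlgebraicIndependent ℚ (fun ij : Fin n × Fin 2 => p ij.1 ij.2)) :
    (∀ (x : Fin n → ℝ) (c : ℝ) (T : Finset (Fin n)), (∀ i, 0 ≤ x i) →
      (∀ i j k, i ≠ j → i ≠ k → j ≠ k → x i + x j + x k ≤ c) → ∑ i, x i ^ 2 ≤ c ^ 2 → T.card = 9 →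
      (∀ i, i ∉ T → x i ^ 2 ≤ 7 * (c ^ 2 - ∑ i, x i ^ 2) ∨
        x i ^ 2 ≤ 4 * (c ^ 2 - ∑ i, x i ^ 2 + below T x i) ∨
        2 * x i * above T x i ≤ c * (c ^ 2 - ∑ i, x i ^ 2 + below T x i)) →
      ∀ (F : MvPolynomial (Fin 3) ℂ) (e : ℕ) (m : Fin n → ℕ), F.IsHomogeneous e → F ≠ 0 →
        (∀ i, MultGE (p i) F (m i)) → ∑ i, x i * (m i : ℝ) ≤ c * e) ∧
    ∀ (F : MvPolynomial (Fin 3) ℂ) (e : ℕ) (u : Fin n → ℕ), Curve p F e u → ¬ MinusOne e u →
      e ^ 2 < ∑ i, u i ^ 2 → (∀ i j k, i ≠ j → i ≠ k → j ≠ k → u i + u j + u k ≤ e) →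
      ∀ T : Finset (Fin n), T.card = 9 → 2 * e + 3 * ∑ i ∈ T, u i ^ 2 ≤ 3 * e ^ 2 + 6 := by
  classical
  obtain ⟨r, rfl⟩ : ∃ r, n = r + 4 := ⟨n - 4, by omega⟩
  refine ⟨?_, ?_⟩
  · intro x c T hx0 hstd hD0 hT hD F e m hF hF0 hm
    refine form_of_irr hx0 ?_ F hF0 e m hF ((mult_iff hF m).1 hm)
    intro G d u h1 h2 h3
    by_cases hu : ∑ i, u i ≤ 3 * d
    · exact std_nonneg hx0 hstd (fun i => van_le h1.ne_zero h2 (h3 i).1) hu
    · refine coreB hP (std_c hx0 hstd) hx0 hstd hT (sub_nonneg.2 hD0) hD d u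
        (irr_of h1 h2 h3 fun h => hu ?_)
      have := h.2
      omega
  · intro F e u hF hne hneg hstd T hT
    obtain ⟨h1, h2, h3⟩ := curve_iff.1 hF
    have hI := irr_of h1 h2 h3 hne
    obtain ⟨k, hk0, hk, -⟩ := ip_neg hneg
    have h4 : ip e u e u = ((e ^ 2 : ℕ) : ℤ) - ((∑ i, u i ^ 2 : ℕ) : ℤ) := by
      unfold ip
      push_cast
      rw [pow_two]
      congr 1
      exact Finset.sum_congr rfl fun i _ => by ring
    have h8 := deg_std hP hI hstd hk hk0 hT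
    have h6 : ∑ i ∈ T, (u i : ℤ) ^ 2 + ∑ i ∈ Tᶜ, (u i : ℤ) ^ 2 = ∑ i, (u i : ℤ) ^ 2 :=
      Finset.sum_add_sum_compl T _
    have h5 : 2 * (e : ℤ) + 3 * ∑ i ∈ T, (u i : ℤ) ^ 2 ≤ 3 * (e : ℤ) ^ 2 + 6 := by
      rw [h4] at hk
      push_cast at hk
      linarith
    exact_mod_cast h5

/-- Part (1): the degree of a standard negative curve. Part (2): nef classes in standard form.
Part (3): all plane curves. -/
theorem result (n : ℕ) (hn : 9 ≤ n) :
    ∃ f : ℕ → MvPolynomial (Fin n × Fin 2) ℂ, (∀ k, f k ≠ 0) ∧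
      ∀ p : Fin n → Fin 2 → ℂ,
        (∀ k, MvPolynomial.eval (fun q : Fin n × Fin 2 => p q.1 q.2) (f k) ≠ 0) →
        ∀ T : Finset (Fin n), T.card = 9 →
        (∀ (F : MvPolynomial (Fin 3) ℂ) (e : ℕ) (u : Fin n → ℕ), Curve p F e u →
          ¬ MinusOne e u → e ^ 2 < ∑ i, u i ^ 2 →
          (∀ i j k, i ≠ j → i ≠ k → j ≠ k → u i + u j + u k ≤ e) →
          2 * e + 3 * ∑ i ∈ T, u i ^ 2 ≤ 3 * e ^ 2 + 6) ∧
        (∀ (x : Fin n → ℝ) (c : ℝ), (∀ i, 0 ≤ x i) →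
          (∀ i j k, i ≠ j → i ≠ k → j ≠ k → x i + x j + x k ≤ c) →
          ∑ i, x i ^ 2 ≤ c ^ 2 →
          (∀ i, i ∉ T → 2 * x i * above T x i ≤ c * (c ^ 2 - ∑ i, x i ^ 2 + below T x i) ∨
            x i ^ 2 ≤ 7 * (c ^ 2 - ∑ i, x i ^ 2) ∨
            x i ^ 2 ≤ 4 * (c ^ 2 - ∑ i, x i ^ 2 + below T x i)) →
          ∀ z ∈ curvCone p, 0 ≤ c * z.1 - ∑ i, x i * z.2 i) ∧
        ∀ m : Fin n → ℕ,
          (∀ i j k, i ≠ j → i ≠ k → j ≠ k → (m i + m j + m k) ^ 2 ≤ ∑ i, m i ^ 2) →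
          ∀ η : ℝ, 0 ≤ η →
            (∀ i, i ∉ T → 2 * (m i : ℝ) * above T (fun i => (m i : ℝ)) i ≤
                √(∑ i, (m i : ℝ) ^ 2) * (η + below T (fun i => (m i : ℝ)) i) ∨
              (m i : ℝ) ^ 2 ≤ 7 * η ∨
              (m i : ℝ) ^ 2 ≤ 4 * (η + below T (fun i => (m i : ℝ)) i)) →
            ∀ (F : MvPolynomial (Fin 3) ℂ) (e : ℕ), F.IsHomogeneous e → F ≠ 0 →
              (∀ i, MultGE (p i) F (m i)) →
              (∑ i, (m i : ℝ) ^ 2) ^ 2 ≤ (e : ℝ) ^ 2 * (∑ i, (m i : ℝ) ^ 2 + η) := by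
  classical
  obtain ⟨f, hf, h⟩ := exists_fam (Fin n × Fin 2)
  refine ⟨f, hf, fun p hp T hT => ?_⟩
  have hP := (h fun q => p q.1 q.2).1 hp
  obtain ⟨hB, hC⟩ := forms (by omega) hP
  have hor : ∀ {a b c : Prop}, a ∨ b ∨ c → b ∨ c ∨ a := by
    intro a b c h
    tauto
  refine ⟨fun F e u h1 h2 h3 h4 => hC F e u h1 h2 h3 h4 T hT, ?_, ?_⟩
  · intro x c hx0 hstd hD0 hD
    exact cone_of hx0 (hB x c T hx0 hstd hD0 hT fun i hi => hor (hD i hi))
  · intro m hstd η hη hD F e hF hF0 hm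
    obtain ⟨S, hSd⟩ : ∃ S : ℝ, S = ∑ i, (m i : ℝ) ^ 2 := ⟨_, rfl⟩
    have hS0 : 0 ≤ S := by rw [hSd]; exact Finset.sum_nonneg fun i _ => sq_nonneg _
    have hmx : ∀ i, (0 : ℝ) ≤ (m i : ℝ) := fun i => Nat.cast_nonneg _
    have hmm : ∑ i, (m i : ℝ) * (m i : ℝ) = S := by
      rw [hSd]
      exact Finset.sum_congr rfl fun i _ => by ring
    rw [← hSd] at hD ⊢
    have hR : √(S + η) ^ 2 = S + η := Real.sq_sqrt (by linarith)
    have e1 : √(S + η) ^ 2 - ∑ i, (m i : ℝ) ^ 2 = η := by rw [hR, ← hSd]; ring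
    have h1 := hB (fun i => (m i : ℝ)) (√(S + η)) T hmx (fun i j k hij hik hjk => by
        refine Real.le_sqrt_of_sq_le ?_
        have h2 : ((m i : ℝ) + m j + m k) ^ 2 ≤ ∑ i, (m i : ℝ) ^ 2 := by
          exact_mod_cast hstd i j k hij hik hjk
        rw [← hSd] at h2
        linarith) (by rw [hR, ← hSd]; linarith) hT (fun i hi => by
        rw [e1]
        refine (hor (hD i hi)).imp id fun h2 => h2.imp id fun h3 => h3.trans ?_
        exact mul_le_mul_of_nonneg_right (Real.sqrt_le_sqrt (by linarith))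
          (add_nonneg hη (below_nonneg T _ i))) F e m hF hF0 hm
    rw [hmm] at h1
    have h2 := pow_le_pow_left₀ hS0 h1 2
    rw [mul_pow, hR] at h2
    linarith

end Pool.Agent.Results.MP_309968_ag.StandardNegativeDegree
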