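import Mathlib
import Pool.Agent.Results.MP_309968_ag.BoundaryRays
import Pool.Agent.K4H28.TC.Forms

set_option autoImplicit false

/-!
# Nef classes: the distance from the positive cone is measured by the coefficients after the ninth

Let `p_1, …, p_n`, `n ≥ 4`, be very general points of the complex projective plane, `X` the blow-up,
and let `D = c H - ∑ x_i E_i`, `c ≥ 0`, `x_i ≥ 0`, be a class with real coefficients and
`D ^ 2 = c ^ 2 - ∑ x_i ^ 2 ≥ 0`. Let `T` be a set of at most nine indices (for example those of the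
nine largest coefficients) and, for `i ∉ T`, let `B_i` be the sum of the `x_j ^ 2` over the `j ∉ T`
with `x_j < x_i`.

(1) If `D` is nonnegative on the `(-1)`-curves and every `i ∉ T` satisfies `x_i ^ 2 ≤ 7 D ^ 2` or
    `x_i ^ 2 ≤ 4 (D ^ 2 + B_i)`, then `D` is nef.
(2) This is proved with: an irreducible curve `C` with `C ^ 2 < 0` which is not a `(-1)`-curve has at
    least ten multiplicities `≥ 4`, and `-8 C ^ 2 ≤ u_j ^ 2` for each multiplicity `u_j ≥ 3`.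
(3) Dually, let `m_i` be numbers with `(m_i + m_j + m_k) ^ 2 ≤ S = ∑ m_l ^ 2` and let `η ≥ 0` satisfy
    for every `i ∉ T` one of the inequalities `m_i ^ 2 ≤ 7 η`, `m_i ^ 2 ≤ 4 (η + B_i)`. Then
    `S ^ 2 ≤ e ^ 2 (S + η)` for every plane curve of degree `e`, irreducible or not, with
    multiplicities at least `m_i`. If for every `i ∉ T` we have `m_i ≤ 2` or `m_j < m_i ≤ 2 m_j` for
    some `j ∉ T`, then `S ≤ e ^ 2`.

In particular `D ^ 2 ≥ x ^ 2 / 7` suffices in (1), where `x` is the tenth largest coefficient, and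
`D ^ 2 ≥ x ^ 2 / 4`, where `x` is the smallest coefficient, if `x_{i + 1} ≥ x_i / 2` for `i ≥ 10` (the
coefficients in decreasing order). There is no condition on `n`, on the nine coefficients `x_i`,
`i ∈ T`, and on the number of different coefficients. The conjecture (Q1) predicts (1) as soon as
`D ^ 2 ≥ 0`, and `S ≤ e ^ 2` in (3).
-/

namespace Pool.Agent.Results.MP_309968_ag.TenthCoefficient

open Pool.Agent.W609.CR (Van Ord aff)
open Pool.Agent.TH167.SH (van_le exists_fam ip kk)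
open Pool.Agent.R355.NegOrb (Irr)
open Pool.Agent.Results.MP_309968_ag.BoundaryRays (MultGE curveClasses curvCone cone_le)
open Pool.Agent.K4H28.TC

/-- `F = 0` is an irreducible plane curve of degree `e` whose multiplicity at `p i` is exactly
`u i`. -/
def Curve {n : ℕ} (p : Fin n → Fin 2 → ℂ) (F : MvPolynomial (Fin 3) ℂ) (e : ℕ) (u : Fin n → ℕ) :
    Prop :=
  F.IsHomogeneous e ∧ Irreducible F ∧ ∀ i, MultGE (p i) F (u i) ∧ ¬ MultGE (p i) F (u i + 1)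

/-- The class `C = e H - ∑ u i E i` satisfies `C ^ 2 = -1` and `K C = -1`. -/
def MinusOne {n : ℕ} (e : ℕ) (u : Fin n → ℕ) : Prop :=
  ∑ i, u i ^ 2 = e ^ 2 + 1 ∧ ∑ i, u i + 1 = 3 * e

/-- the two descriptions of multiplicities -/
theorem mult_iff {n : ℕ} {p : Fin n → Fin 2 → ℂ} {F : MvPolynomial (Fin 3) ℂ} {e : ℕ}
    (hF : F.IsHomogeneous e) (m : Fin n → ℕ) :
    (∀ i, MultGE (p i) F (m i)) ↔ ∀ i, Van (aff (p i)) (m i) F := by
  have h1 : (∀ i, Van (aff (p i)) (m i) F) ↔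
      F ∈ Pool.Agent.W609.CR.VS (fun j => aff (p j)) m e := by
    rw [Pool.Agent.TH167.SH.mem_VS]
    exact ⟨fun h => ⟨hF, h⟩, fun h => h.2⟩
  rw [h1, Pool.Agent.W609.CR.vs_eq_forms, Pool.Agent.H248R5.mem_forms]
  have h2 : ∀ i, Pool.Agent.H248R5.tau (p i) F ∈ (MvPolynomial.idealOfVars (Fin 2) ℂ) ^ (m i) ↔
      MultGE (p i) F (m i) := by
    intro i
    rw [MvPolynomial.mem_pow_idealOfVars_iff']
    constructor
    · intro h s hs
      by_contra hne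
      refine (MvPolynomial.mem_support_iff.1 hs) (h s ?_)
      rw [Finsupp.degree_eq_sum, Fin.sum_univ_two]
      omega
    · intro h s hs
      by_contra hne
      have h3 := h s (MvPolynomial.mem_support_iff.2 hne)
      rw [Finsupp.degree_eq_sum, Fin.sum_univ_two] at hs
      omega
  constructor
  · exact fun h => ⟨hF, fun i => (h2 i).2 (h i)⟩
  · exact fun h i => (h2 i).1 (h.2 i)

theorem mult_iff1 {a : Fin 2 → ℂ} {F : MvPolynomial (Fin 3) ℂ} {e : ℕ}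
    (hF : F.IsHomogeneous e) (m : ℕ) : MultGE a F m ↔ Van (aff a) m F := by
  have h := mult_iff (p := fun _ : Fin 1 => a) hF fun _ => m
  exact ⟨fun h1 => h.1 (fun _ => h1) 0, fun h1 => h.2 (fun _ => h1) 0⟩

theorem curve_iff {n : ℕ} {p : Fin n → Fin 2 → ℂ} {F : MvPolynomial (Fin 3) ℂ} {e : ℕ}
    {u : Fin n → ℕ} : Curve p F e u ↔
      Irreducible F ∧ F.IsHomogeneous e ∧ ∀ j, Ord (aff (p j)) (u j) F := by
  constructor
  · rintro ⟨h1, h2, h3⟩
    exact ⟨h2, h1, fun j => ⟨(mult_iff1 h1 _).1 (h3 j).1,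
      fun h => (h3 j).2 ((mult_iff1 h1 _).2 h)⟩⟩
  · rintro ⟨h1, h2, h3⟩
    exact ⟨h2, h1, fun j => ⟨(mult_iff1 h2 _).2 (h3 j).1,
      fun h => (h3 j).2 ((mult_iff1 h2 _).1 h)⟩⟩

theorem minusOne_iff {n e : ℕ} {u : Fin n → ℕ} :
    (ip e u e u = -1 ∧ kk e u = 1) ↔ MinusOne e u := by
  have h1 : ip e u e u = ((e ^ 2 : ℕ) : ℤ) - ((∑ i, u i ^ 2 : ℕ) : ℤ) := by
    unfold ip
    push_cast
    rw [pow_two]
    congr 1
    exact Finset.sum_congr rfl fun i _ => by ring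
  have h2 : kk e u = ((3 * e : ℕ) : ℤ) - ((∑ i, u i : ℕ) : ℤ) := by
    unfold kk
    push_cast
    rfl
  rw [h1, h2]
  unfold MinusOne
  constructor
  · rintro ⟨h3, h4⟩
    exact ⟨by omega, by omega⟩
  · rintro ⟨h3, h4⟩
    exact ⟨by omega, by omega⟩

theorem irr_of {n : ℕ} {p : Fin n → Fin 2 → ℂ} {F : MvPolynomial (Fin 3) ℂ} {e : ℕ}
    {u : Fin n → ℕ} (h1 : Irreducible F) (h2 : F.IsHomogeneous e)
    (h3 : ∀ j, Ord (aff (p j)) (u j) F) (h : ¬ MinusOne e u) : Irr p e u :=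
  ⟨⟨F, h1, h2, h3⟩, fun h0 => h (minusOne_iff.1 h0)⟩

/-- From irreducible curves to the closed cone. -/
theorem cone_of {n : ℕ} {p : Fin n → Fin 2 → ℂ} {x : Fin n → ℝ} {c : ℝ} (hx0 : ∀ i, 0 ≤ x i)
    (h : ∀ (F : MvPolynomial (Fin 3) ℂ) (e : ℕ) (m : Fin n → ℕ), F.IsHomogeneous e → F ≠ 0 →
      (∀ i, MultGE (p i) F (m i)) → ∑ i, x i * (m i : ℝ) ≤ c * e) :
    ∀ z ∈ curvCone p, 0 ≤ c * z.1 - ∑ i, x i * z.2 i := by
  intro z hz
  have h1 := cone_le (p := p) (l := x) (g := id) (c := c) hx0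
    fun F e m hF _ hF0 hm => by
      have h1 := h F e m hF hF0 hm
      simp only [id]
      linarith
  have h2 := h1 z hz
  simp only [id] at h2
  linarith

/-- The inequality for all forms. -/
theorem forms {n : ℕ} (hn : 4 ≤ n) {p : Fin n → Fin 2 → ℂ}
    (hP : AlgebraicIndependent ℚ (fun ij : Fin n × Fin 2 => p ij.1 ij.2)) :
    (∀ (x : Fin n → ℝ) (c : ℝ) (T : Finset (Fin n)), 0 ≤ c → (∀ i, 0 ≤ x i) →
      ∑ i, x i ^ 2 ≤ c ^ 2 → T.card ≤ 9 →
      (∀ i, i ∉ T → x i ^ 2 ≤ 7 * (c ^ 2 - ∑ i, x i ^ 2) ∨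
        x i ^ 2 ≤ 4 * (c ^ 2 - ∑ i, x i ^ 2 + below T x i)) →
      (∀ (F : MvPolynomial (Fin 3) ℂ) (e : ℕ) (u : Fin n → ℕ), Curve p F e u → MinusOne e u →
        ∑ i, x i * (u i : ℝ) ≤ c * e) →
      ∀ (F : MvPolynomial (Fin 3) ℂ) (e : ℕ) (m : Fin n → ℕ), F.IsHomogeneous e → F ≠ 0 →
        (∀ i, MultGE (p i) F (m i)) → ∑ i, x i * (m i : ℝ) ≤ c * e) ∧
    (∀ (x : Fin n → ℝ) (c : ℝ), (∀ i, 0 ≤ x i) →
      (∀ i j k, i ≠ j → i ≠ k → j ≠ k → x i + x j + x k ≤ c) →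
      ∀ (F : MvPolynomial (Fin 3) ℂ) (e : ℕ) (u : Fin n → ℕ), Curve p F e u →
        ∑ i, u i ≤ 3 * e → ∑ i, x i * (u i : ℝ) ≤ c * e) ∧
    ∀ (F : MvPolynomial (Fin 3) ℂ) (e : ℕ) (u : Fin n → ℕ), Curve p F e u → ¬ MinusOne e u →
      e ^ 2 < ∑ i, u i ^ 2 → 10 ≤ (Finset.univ.filter fun j => 4 ≤ u j).card ∧
        ∀ j, 3 ≤ u j → 8 * ∑ i, u i ^ 2 ≤ 8 * e ^ 2 + u j ^ 2 := by
  classical
  obtain ⟨r, rfl⟩ : ∃ r, n = r + 4 := ⟨n - 4, by omega⟩
  refine ⟨?_, ?_, ?_⟩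
  · intro x c T hc hx0 hD0 hT hD hE F e m hF hF0 hm
    refine form_of_irr hx0 ?_ F hF0 e m hF ((mult_iff hF m).1 hm)
    intro G d u h1 h2 h3
    by_cases hne : MinusOne d u
    · exact hE G d u (curve_iff.2 ⟨h1, h2, h3⟩) hne
    · exact coreA hP hc hx0 hT (sub_nonneg.2 hD0) hD (irr_of h1 h2 h3 hne)
  · intro x c hx0 hstd F e u hF hu
    obtain ⟨h1, h2, h3⟩ := curve_iff.1 hF
    exact std_nonneg hx0 hstd (fun i => van_le h1.ne_zero h2 (h3 i).1) hu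
  · intro F e u hF hne hneg
    obtain ⟨h1, h2, h3⟩ := curve_iff.1 hF
    have hI := irr_of h1 h2 h3 hne
    obtain ⟨k, hk0, hk, -⟩ := ip_neg hneg
    have h4 : ip e u e u = ((e ^ 2 : ℕ) : ℤ) - ((∑ i, u i ^ 2 : ℕ) : ℤ) := by
      unfold ip
      push_cast
      rw [pow_two]
      congr 1
      exact Finset.sum_congr rfl fun i _ => by ring
    refine ⟨ten hP hI (by rw [hk]; linarith), fun j hj => ?_⟩
    have h8 := eight hP hI hk hk0 hj
    have h5 : 8 * ((∑ i, u i ^ 2 : ℕ) : ℤ) ≤ 8 * ((e ^ 2 : ℕ) : ℤ) + ((u j ^ 2 : ℕ) : ℤ) := by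
      rw [h4] at hk
      push_cast at hk ⊢
      linarith
    exact_mod_cast h5

/-- Part (1): nef classes. Part (2): irreducible curves of negative self-intersection.
Part (3): all plane curves. -/
theorem result (n : ℕ) (hn : 4 ≤ n) :
    ∃ f : ℕ → MvPolynomial (Fin n × Fin 2) ℂ, (∀ k, f k ≠ 0) ∧
      ∀ p : Fin n → Fin 2 → ℂ,
        (∀ k, MvPolynomial.eval (fun q : Fin n × Fin 2 => p q.1 q.2) (f k) ≠ 0) →
        (∀ (x : Fin n → ℝ) (c : ℝ) (T : Finset (Fin n)), 0 ≤ c → (∀ i, 0 ≤ x i) →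
          ∑ i, x i ^ 2 ≤ c ^ 2 → T.card ≤ 9 →
          (∀ i, i ∉ T → x i ^ 2 ≤ 7 * (c ^ 2 - ∑ i, x i ^ 2) ∨
            x i ^ 2 ≤ 4 * (c ^ 2 - ∑ i, x i ^ 2 + below T x i)) →
          (∀ (F : MvPolynomial (Fin 3) ℂ) (e : ℕ) (u : Fin n → ℕ), Curve p F e u →
            MinusOne e u → ∑ i, x i * (u i : ℝ) ≤ c * e) →
          ∀ z ∈ curvCone p, 0 ≤ c * z.1 - ∑ i, x i * z.2 i) ∧
        (∀ (F : MvPolynomial (Fin 3) ℂ) (e : ℕ) (u : Fin n → ℕ), Curve p F e u →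
          ¬ MinusOne e u → e ^ 2 < ∑ i, u i ^ 2 →
          10 ≤ (Finset.univ.filter fun j => 4 ≤ u j).card ∧
          ∀ j, 3 ≤ u j → 8 * ∑ i, u i ^ 2 ≤ 8 * e ^ 2 + u j ^ 2) ∧
        ∀ (m : Fin n → ℕ) (T : Finset (Fin n)), T.card ≤ 9 →
          (∀ i j k, i ≠ j → i ≠ k → j ≠ k → (m i + m j + m k) ^ 2 ≤ ∑ i, m i ^ 2) →
          ∀ (F : MvPolynomial (Fin 3) ℂ) (e : ℕ), F.IsHomogeneous e → F ≠ 0 →
            (∀ i, MultGE (p i) F (m i)) →
            (∀ η : ℝ, 0 ≤ η → (∀ i, i ∉ T → (m i : ℝ) ^ 2 ≤ 7 * η ∨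
                (m i : ℝ) ^ 2 ≤ 4 * (η + below T (fun i => (m i : ℝ)) i)) →
              (∑ i, (m i : ℝ) ^ 2) ^ 2 ≤ (e : ℝ) ^ 2 * (∑ i, (m i : ℝ) ^ 2 + η)) ∧
            ((∀ i, i ∉ T → m i ≤ 2 ∨ ∃ j, j ∉ T ∧ m j < m i ∧ m i ≤ 2 * m j) →
              ∑ i, m i ^ 2 ≤ e ^ 2) := by
  classical
  obtain ⟨f, hf, h⟩ := exists_fam (Fin n × Fin 2)
  refine ⟨f, hf, fun p hp => ?_⟩
  have hP := (h fun q => p q.1 q.2).1 hp
  obtain ⟨hA, hB, hC⟩ := forms hn hP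
  refine ⟨?_, hC, ?_⟩
  · intro x c T hc hx0 hD0 hT hD hE
    exact cone_of hx0 (hA x c T hc hx0 hD0 hT hD hE)
  · intro m T hT hstd F e hF hF0 hm
    obtain ⟨S, hSd⟩ : ∃ S : ℝ, S = ∑ i, (m i : ℝ) ^ 2 := ⟨_, rfl⟩
    have hS0 : 0 ≤ S := by rw [hSd]; exact Finset.sum_nonneg fun i _ => sq_nonneg _
    have hmx : ∀ i, (0 : ℝ) ≤ (m i : ℝ) := fun i => Nat.cast_nonneg _
    have hmm : ∑ i, (m i : ℝ) * (m i : ℝ) = S := by
      rw [hSd]
      exact Finset.sum_congr rfl fun i _ => by ring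
    have key : ∀ η : ℝ, 0 ≤ η → (∀ i, i ∉ T → (m i : ℝ) ^ 2 ≤ 7 * η ∨
        (m i : ℝ) ^ 2 ≤ 4 * (η + below T (fun i => (m i : ℝ)) i)) →
        S ^ 2 ≤ (e : ℝ) ^ 2 * (S + η) := by
      intro η hη hD
      have hR : √(S + η) ^ 2 = S + η := Real.sq_sqrt (by linarith)
      have e1 : √(S + η) ^ 2 - ∑ i, (m i : ℝ) ^ 2 = η := by rw [hR, ← hSd]; ring
      have h1 := hA (fun i => (m i : ℝ)) (√(S + η)) T (Real.sqrt_nonneg _) hmx
        (by rw [hR, ← hSd]; linarith) hT (by rw [e1]; exact hD)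
        (fun G d u hG hd => hB (fun i => (m i : ℝ)) (√(S + η)) hmx (fun i j k hij hik hjk => by
          refine Real.le_sqrt_of_sq_le ?_
          have h2 : ((m i : ℝ) + m j + m k) ^ 2 ≤ ∑ i, (m i : ℝ) ^ 2 := by
            exact_mod_cast hstd i j k hij hik hjk
          rw [← hSd] at h2
          linarith) G d u hG (by have := hd.2; omega)) F e m hF hF0 hm
      rw [hmm] at h1
      have h2 := pow_le_pow_left₀ hS0 h1 2
      rw [mul_pow, hR] at h2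
      linarith
    refine ⟨fun η hη hD => ?_, fun hgap => ?_⟩
    · rw [← hSd]
      exact key η hη hD
    · have h1 := key (4 / 7) (by norm_num) fun i hi => by
        rcases hgap i hi with h2 | ⟨j, hj, hji, hij⟩
        · left
          have h3 : (m i : ℝ) ≤ 2 := by exact_mod_cast h2
          have h4 := pow_le_pow_left₀ (hmx i) h3 2
          linarith
        · right
          have h3 : (m i : ℝ) ≤ 2 * m j := by exact_mod_cast hij
          have h4 := pow_le_pow_left₀ (hmx i) h3 2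
          have h5 : (m j : ℝ) ^ 2 ≤ below T (fun i => (m i : ℝ)) i := by
            unfold below
            have h6 := Finset.single_le_sum
              (f := fun l => if l ∉ T ∧ (m l : ℝ) < (m i : ℝ) then (m l : ℝ) ^ 2 else 0)
              (s := Finset.univ) (fun l _ => by
                split_ifs
                · exact sq_nonneg _
                · exact le_rfl) (Finset.mem_univ j)
            have h7 : (m j : ℝ) < (m i : ℝ) := by exact_mod_cast hji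
            rw [if_pos ⟨hj, h7⟩] at h6
            exact h6
          rw [mul_pow] at h4
          linarith
      have h2 : 7 * (∑ i, m i ^ 2) ^ 2 ≤ e ^ 2 * (7 * ∑ i, m i ^ 2 + 4) := by
        have h3 : 7 * S ^ 2 ≤ (e : ℝ) ^ 2 * (7 * S + 4) := by linarith
        rw [hSd] at h3
        exact_mod_cast h3
      by_contra hcon
      push Not at hcon
      obtain ⟨V, hV⟩ : ∃ V, V = ∑ i, m i ^ 2 := ⟨_, rfl⟩
      rw [← hV] at h2 hcon
      obtain ⟨d, hd⟩ : ∃ d, V = e ^ 2 + 1 + d := ⟨V - (e ^ 2 + 1), by omega⟩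
      rw [hd] at h2
      nlinarith [Nat.zero_le (e ^ 2), Nat.zero_le d]

end Pool.Agent.Results.MP_309968_ag.TenthCoefficient
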